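import Pool.Agent.LGD.Stmts

/-! Row FIN of squad LGD (MP_5f6ee5_nt): the Cauchy-Schwarz step. -/

set_option autoImplicit false

namespace Pool.Agent.LGD.H11

open Finset

theorem fin (hM : MaiStmt) (hD : Pool.Agent.OPH.Dv2Stmt) : FinStmt := by
  intro n1 hn1
  obtain ⟨C, hC, hMA⟩ := hM n1 hn1
  obtain ⟨D, hD1, hDV⟩ := hD
  obtain ⟨E, hE⟩ : ∃ E : ℕ, E = D * 2 * 2 ^ D := ⟨_, rfl⟩
  refine ⟨C ^ 2 * E + 2 * C + D + 4, by omega, ?_⟩
  intro M f e hCM hf hf1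
  have hM4 : 4 ≤ M := by omega
  have hCM' : C ≤ M := by nlinarith [Nat.zero_le (C ^ 2 * E)]
  have h1 := hMA M f e hCM' hf hf1
  have h2 := hDV (M + 1) (by omega)
  obtain ⟨l, hl⟩ : ∃ l : ℕ, l = Nat.log 2 M := ⟨_, rfl⟩
  have hl1 : 1 ≤ l := by
    rw [hl]; exact Nat.log_pos (by norm_num) (by omega)
  have hl2 : Nat.log 2 (M + 1) ≤ 2 * l := by
    have hb : Nat.log 2 (M + 1) ≤ Nat.log 2 (M * 2) := Nat.log_mono_right (by omega)
    rw [Nat.log_mul_base (by norm_num) (by omega)] at hb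
    omega
  rw [← hl] at h1
  rw [← hl]
  have h2' : ∑ n ∈ Finset.Ioo ((M + 1 - 1) ^ 2) ((M + 1 + 1) ^ 2), n.divisors.card ^ 2 ≤
      E * M * l ^ D := by
    refine h2.trans ?_
    calc D * (M + 1) * Nat.log 2 (M + 1) ^ D ≤ D * (2 * M) * (2 * l) ^ D := by
          apply Nat.mul_le_mul
          · exact Nat.mul_le_mul_left _ (by omega)
          · exact Nat.pow_le_pow_left hl2 D
      _ = E * M * l ^ D := by rw [hE, mul_pow]; ring
  have h3 : DS f e M ^ 2 ≤ (NS f e M).card * ∑ n ∈ NS f e M, n.divisors.card ^ 2 := by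
    unfold DS
    exact sq_sum_le_card_mul_sum_sq
  have h4 : ∑ n ∈ NS f e M, n.divisors.card ^ 2 ≤
      ∑ n ∈ Finset.Ioo ((M + 1 - 1) ^ 2) ((M + 1 + 1) ^ 2), n.divisors.card ^ 2 := by
    apply Finset.sum_le_sum_of_subset
    unfold NS
    intro n hn
    have hn' := Finset.mem_Ioo.mp (Finset.mem_of_mem_filter n hn)
    rw [Finset.mem_Ioo]
    refine ⟨?_, ?_⟩
    · have : M + 1 - 1 = M := by omega
      rw [this]; exact hn'.1
    · refine hn'.2.trans_le ?_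
      exact Nat.pow_le_pow_left (by omega) 2
  have h5 : DS f e M ^ 2 ≤ (NS f e M).card * (E * M * l ^ D) :=
    h3.trans (Nat.mul_le_mul_left _ (h4.trans h2'))
  have h6 : M ^ 2 ≤ (C * l ^ C) ^ 2 * ((NS f e M).card * (E * M * l ^ D)) := by
    calc M ^ 2 ≤ (C * l ^ C * DS f e M) ^ 2 := Nat.pow_le_pow_left h1 2
      _ = (C * l ^ C) ^ 2 * DS f e M ^ 2 := by ring
      _ ≤ _ := Nat.mul_le_mul_left _ h5
  have h7 : M * M ≤ (C ^ 2 * E * l ^ (2 * C + D) * (NS f e M).card) * M := by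
    calc M * M = M ^ 2 := by ring
      _ ≤ _ := h6
      _ = _ := by rw [pow_add, pow_mul]; ring
  have h8 : M ≤ C ^ 2 * E * l ^ (2 * C + D) * (NS f e M).card :=
    Nat.le_of_mul_le_mul_right h7 (by omega)
  refine h8.trans ?_
  apply Nat.mul_le_mul_right
  apply Nat.mul_le_mul
  · omega
  · apply Nat.pow_le_pow_right hl1
    omega

end Pool.Agent.LGD.H11
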